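import Mathlib

/-!
# MP_78803a, full answer: the frozen fraction (abstract form)

`Y₀, Y₁ ≥ 4/5` heights on the circle before and after some steps, `H₀, H₁` with `(Y - 8)/2 ≤ H ≤ 19 Y`.
If `H₁ ≥ H₀ - 1` where `Y₀ > 2 M` (points which never move), then
`(M/4 - 4) |{Y₁ > M/2}| ≤ mean (H₁ - H₀) + 39 M |{Y₀ > y}| + 19 y + 9` and `|{Y₀ > y}| ≤ (mean log Y₀ + 1)/log y`.
-/

set_option autoImplicit false

open MeasureTheory Real Metric

namespace Pool.Agent.Helper58.QF

/-- indicator of `{c < Y}` as a real function -/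
noncomputable def ind (Y : ℂ → ℝ) (c : ℝ) (z : ℂ) : ℝ := if c < Y z then 1 else 0

theorem ind_nonneg (Y : ℂ → ℝ) (c : ℝ) (z : ℂ) : 0 ≤ ind Y c z := by
  unfold ind; split_ifs <;> norm_num

theorem ind_le_one (Y : ℂ → ℝ) (c : ℝ) (z : ℂ) : ind Y c z ≤ 1 := by
  unfold ind; split_ifs <;> norm_num

theorem ind_integrable {Y : ℂ → ℝ} (hY : ContinuousOn Y (sphere 0 1)) (c : ℝ) :
    CircleIntegrable (ind Y c) 0 1 := by
  have h1 : Continuous (fun t : ℝ => Y (circleMap 0 1 t)) :=
    hY.comp_continuous (continuous_circleMap 0 1) (fun t => by simp)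
  have hm : Measurable (fun t : ℝ => ind Y c (circleMap 0 1 t)) := by
    unfold ind
    exact Measurable.ite (measurableSet_lt measurable_const h1.measurable) measurable_const
      measurable_const
  unfold CircleIntegrable
  refine (intervalIntegrable_const (c := (1 : ℝ))).mono_fun' hm.aestronglyMeasurable ?_
  refine Filter.Eventually.of_forall (fun t => ?_)
  have h2 := ind_nonneg Y c (circleMap 0 1 t)
  have h3 := ind_le_one Y c (circleMap 0 1 t)
  show ‖ind Y c (circleMap 0 1 t)‖ ≤ 1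
  rw [Real.norm_eq_abs, abs_of_nonneg h2]
  exact h3

theorem circ_avg_const (c : ℝ) : circleAverage (fun _ : ℂ => c) 0 1 = c :=
  circleAverage_const c 0 1

/-- `|{Y > y}| ≤ (mean log Y + 1) / log y`. -/
theorem markov_log {Y : ℂ → ℝ} (hY : ContinuousOn Y (sphere 0 1))
    (h8 : ∀ z : ℂ, ‖z‖ = 1 → 4 / 5 ≤ Y z) {y : ℝ} (hy : 1 < y) {C : ℝ}
    (hC : circleAverage (fun z => Real.log (Y z)) 0 1 ≤ C) :
    circleAverage (ind Y y) 0 1 ≤ (C + 1) / Real.log y := by
  have hl : 0 < Real.log y := Real.log_pos hy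
  have hlogc : ContinuousOn (fun z => Real.log (Y z)) (sphere 0 1) :=
    hY.log (fun z hz => by
      have := h8 z (by simpa using hz)
      intro h0
      rw [h0] at this
      norm_num at this)
  have hi : CircleIntegrable (fun z => Real.log (Y z)) 0 1 := hlogc.circleIntegrable zero_le_one
  have h45 : -1 ≤ Real.log (4 / 5) := by
    have h := Real.one_sub_inv_le_log_of_pos (show (0 : ℝ) < 4 / 5 by norm_num)
    norm_num at h
    linarith
  have hpt : ∀ z ∈ sphere (0 : ℂ) |1|, (Real.log y) * ind Y y z ≤ Real.log (Y z) + 1 := by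
    intro z hz
    have hz1 : ‖z‖ = 1 := by simpa using hz
    have h1 := h8 z hz1
    have h2 : Real.log (4 / 5) ≤ Real.log (Y z) := Real.log_le_log (by norm_num) h1
    unfold ind
    split_ifs with hc
    · have : Real.log y ≤ Real.log (Y z) := Real.log_le_log (by linarith) hc.le
      linarith
    · linarith
  have hi1 : CircleIntegrable (fun z => Real.log y * ind Y y z) 0 1 := by
    have := (ind_integrable hY y).const_smul (a := Real.log y)
    simpa [Pi.smul_def, smul_eq_mul] using this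
  have hi2 : CircleIntegrable (fun z => Real.log (Y z) + 1) 0 1 :=
    hi.add (circleIntegrable_const 1 0 1)
  have h3 := circleAverage_mono hi1 hi2 hpt
  have h4 : circleAverage (fun z => Real.log y * ind Y y z) 0 1 =
      Real.log y * circleAverage (ind Y y) 0 1 := by
    have := circleAverage_fun_smul (a := Real.log y) (f := ind Y y) (c := (0 : ℂ)) (R := 1)
    simpa [smul_eq_mul] using this
  have h5 : circleAverage (fun z => Real.log (Y z) + 1) 0 1 =
      circleAverage (fun z => Real.log (Y z)) 0 1 + 1 := by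
    rw [circleAverage_fun_add hi (circleIntegrable_const 1 0 1), circ_avg_const]
  rw [h4, h5] at h3
  rw [le_div_iff₀ hl]
  linarith

/-- **Frozen fraction.** -/
theorem frozen {Y₀ Y₁ H₀ H₁ : ℂ → ℝ} (hY₀ : ContinuousOn Y₀ (sphere 0 1))
    (hY₁ : ContinuousOn Y₁ (sphere 0 1)) (hH₀ : ContinuousOn H₀ (sphere 0 1))
    (hH₁ : ContinuousOn H₁ (sphere 0 1))
    (h8 : ∀ z : ℂ, ‖z‖ = 1 → 4 / 5 ≤ Y₁ z)
    (hl₁ : ∀ z : ℂ, ‖z‖ = 1 → (Y₁ z - 8) / 2 ≤ H₁ z)
    (hu₀ : ∀ z : ℂ, ‖z‖ = 1 → H₀ z ≤ 19 * Y₀ z)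
    {M y E p : ℝ} (hM : 16 < M) (hy : 1 ≤ y)
    (hfar : ∀ z : ℂ, ‖z‖ = 1 → 2 * M < Y₀ z → H₀ z - 1 ≤ H₁ z)
    (hE : circleAverage H₁ 0 1 - circleAverage H₀ 0 1 ≤ E)
    (hp : circleAverage (ind Y₀ y) 0 1 ≤ p) :
    circleAverage (ind Y₁ (M / 2)) 0 1 ≤ (E + 39 * M * p + 19 * y + 9) / (M / 4 - 4) := by
  have hM' : 0 < M / 4 - 4 := by linarith
  have hiH₀ : CircleIntegrable H₀ 0 1 := hH₀.circleIntegrable zero_le_one
  have hiH₁ : CircleIntegrable H₁ 0 1 := hH₁.circleIntegrable zero_le_one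
  have hi0 := ind_integrable hY₀ y
  have hi1 := ind_integrable hY₁ (M / 2)
  have hpt : ∀ z ∈ sphere (0 : ℂ) |1|, (M / 4 - 4) * ind Y₁ (M / 2) z ≤
      (H₁ z - H₀ z) + (39 * M * ind Y₀ y z + (19 * y + 9)) := by
    intro z hz
    have hz1 : ‖z‖ = 1 := by simpa using hz
    have a1 := h8 z hz1
    have a2 := hl₁ z hz1
    have a3 := hu₀ z hz1
    have b1 : (M / 4 - 4) * ind Y₁ (M / 2) z ≤ M / 4 - 4 := by
      have := ind_le_one Y₁ (M / 2) z
      nlinarith
    by_cases c1 : y < Y₀ z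
    · have e1 : ind Y₀ y z = 1 := by unfold ind; rw [if_pos c1]
      rw [e1]
      by_cases c2 : 2 * M < Y₀ z
      · have := hfar z hz1 c2
        nlinarith
      · rw [not_lt] at c2
        nlinarith
    · have e1 : ind Y₀ y z = 0 := by unfold ind; rw [if_neg c1]
      rw [e1]
      rw [not_lt] at c1
      by_cases c3 : M / 2 < Y₁ z
      · have e2 : ind Y₁ (M / 2) z = 1 := by unfold ind; rw [if_pos c3]
        rw [e2]
        nlinarith
      · have e2 : ind Y₁ (M / 2) z = 0 := by unfold ind; rw [if_neg c3]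
        rw [e2]
        nlinarith
  have hiL : CircleIntegrable (fun z => (M / 4 - 4) * ind Y₁ (M / 2) z) 0 1 := by
    have := hi1.const_smul (a := M / 4 - 4)
    simpa [Pi.smul_def, smul_eq_mul] using this
  have hiM : CircleIntegrable (fun z => 39 * M * ind Y₀ y z) 0 1 := by
    have := hi0.const_smul (a := 39 * M)
    simpa [Pi.smul_def, smul_eq_mul] using this
  have hid : CircleIntegrable (fun z => H₁ z - H₀ z) 0 1 := hiH₁.sub hiH₀
  have hic : CircleIntegrable (fun _ : ℂ => 19 * y + 9) 0 1 := circleIntegrable_const _ 0 1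
  have hiM' : CircleIntegrable (fun z => 39 * M * ind Y₀ y z + (19 * y + 9)) 0 1 := hiM.add hic
  have hiR : CircleIntegrable
      (fun z => (H₁ z - H₀ z) + (39 * M * ind Y₀ y z + (19 * y + 9))) 0 1 := hid.add hiM'
  have h3 := circleAverage_mono hiL hiR hpt
  have h4 : circleAverage (fun z => (M / 4 - 4) * ind Y₁ (M / 2) z) 0 1 =
      (M / 4 - 4) * circleAverage (ind Y₁ (M / 2)) 0 1 := by
    have := circleAverage_fun_smul (a := M / 4 - 4) (f := ind Y₁ (M / 2)) (c := (0 : ℂ)) (R := 1)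
    simpa [smul_eq_mul] using this
  have h5 : circleAverage (fun z => 39 * M * ind Y₀ y z) 0 1 =
      39 * M * circleAverage (ind Y₀ y) 0 1 := by
    have := circleAverage_fun_smul (a := 39 * M) (f := ind Y₀ y) (c := (0 : ℂ)) (R := 1)
    simpa [smul_eq_mul] using this
  have h6 : circleAverage (fun z => (H₁ z - H₀ z) + (39 * M * ind Y₀ y z + (19 * y + 9))) 0 1 =
      (circleAverage H₁ 0 1 - circleAverage H₀ 0 1) +
        (39 * M * circleAverage (ind Y₀ y) 0 1 + (19 * y + 9)) := by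
    rw [circleAverage_fun_add hid hiM', circleAverage_fun_add hiM hic,
      circleAverage_fun_sub hiH₁ hiH₀, h5, circ_avg_const]
  rw [h4, h6] at h3
  rw [le_div_iff₀ hM']
  have h7 : 39 * M * circleAverage (ind Y₀ y) 0 1 ≤ 39 * M * p :=
    mul_le_mul_of_nonneg_left hp (by linarith)
  linarith

end Pool.Agent.Helper58.QF
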