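import Pool.Agent.Helper16.T78.T2
import Pool.Agent.Helper16.T78.T5
import Pool.Agent.Helper84.Lam.Logs

/-!
# MP_78803a, full answer: orthogonality

`F`, `G` zero-free near the closed disc, `|G/F - 1| ≤ C |z|^K`:
`mean (log|G|)^2 ≤ mean (log|F|)^2 + mean (log|G/F|)^2 + S (4 R log (S + S' + 1) + 1) / K`,
`S`, `S'` bound the logarithmic derivatives and `R` bounds `|log |G/F||` on the circle.
-/

set_option autoImplicit false

open Metric Complex Filter Topology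

namespace Pool.Agent.Helper58.QF

/-- open neighbourhoods of the closed disc contain a larger disc -/
theorem exists_ball {U : Set ℂ} (hU : IsOpen U) (h : closedBall (0 : ℂ) 1 ⊆ U) :
    ∃ R : ℝ, 1 < R ∧ ball (0 : ℂ) R ⊆ U := by
  obtain ⟨δ, hδ, hs⟩ := (isCompact_closedBall (0 : ℂ) 1).exists_thickening_subset_open hU h
  rw [thickening_closedBall hδ zero_le_one] at hs
  exact ⟨δ + 1, by linarith, hs⟩

/-- analytic and zero-free on a larger disc -/
theorem exists_ball_ne {F : ℂ → ℂ} (hF : AnalyticOnNhd ℂ F (closedBall 0 1))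
    (h0 : ∀ z : ℂ, ‖z‖ ≤ 1 → F z ≠ 0) :
    ∃ R : ℝ, 1 < R ∧ (∀ z ∈ ball (0 : ℂ) R, AnalyticAt ℂ F z) ∧
      ∀ z ∈ ball (0 : ℂ) R, F z ≠ 0 := by
  have hU : IsOpen {z : ℂ | AnalyticAt ℂ F z ∧ F z ≠ 0} := by
    rw [isOpen_iff_mem_nhds]
    rintro z ⟨hz1, hz2⟩
    exact Filter.inter_mem hz1.eventually_analyticAt (hz1.continuousAt.eventually_ne hz2)
  obtain ⟨R, hR, hs⟩ := exists_ball hU (fun z hz => ⟨hF z hz, h0 z (by simpa using hz)⟩)
  exact ⟨R, hR, fun z hz => (hs hz).1, fun z hz => (hs hz).2⟩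

/-- a logarithm near the closed disc -/
theorem exists_log {F : ℂ → ℂ} (hF : AnalyticOnNhd ℂ F (closedBall 0 1))
    (h0 : ∀ z : ℂ, ‖z‖ ≤ 1 → F z ≠ 0) :
    ∃ L : ℂ → ℂ, AnalyticOnNhd ℂ L (closedBall 0 1) ∧ L 0 = Complex.log (F 0) ∧
      (∀ z : ℂ, ‖z‖ ≤ 1 → cexp (L z) = F z) ∧ (∀ z : ℂ, ‖z‖ ≤ 1 → deriv L z = deriv F z / F z) := by
  obtain ⟨R, hR, h1, h2⟩ := exists_ball_ne hF h0
  obtain ⟨L, h3, h4, h5⟩ := Pool.Agent.Helper84.Lam.exists_log_ball (R := R) (F := F)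
    (fun z hz => (h1 z hz).differentiableAt.differentiableWithinAt) h2
  have hin : ∀ z : ℂ, ‖z‖ ≤ 1 → z ∈ ball (0 : ℂ) R := fun z hz => by
    rw [mem_ball, dist_zero_right]; linarith
  have hd : ∀ z : ℂ, ‖z‖ ≤ 1 → DifferentiableAt ℂ L z := fun z hz =>
    h3.differentiableAt (isOpen_ball.mem_nhds (hin z hz))
  refine ⟨L, fun z hz => h3.analyticAt (isOpen_ball.mem_nhds (hin z (by simpa using hz))),
    h4 (by linarith), fun z hz => h5 z (hin z hz), fun z hz => ?_⟩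
  have e1 : HasDerivAt F (cexp (L z) * deriv L z) z := by
    refine (hd z hz).hasDerivAt.cexp.congr_of_eventuallyEq ?_
    filter_upwards [isOpen_ball.mem_nhds (hin z hz)] with w hw
    exact (h5 w hw).symm
  rw [e1.deriv, h5 z (hin z hz)]
  rw [mul_div_cancel_left₀ _ (h0 z hz)]

/-- a function bounded by `C |z|^K` near `0` is divisible by `z^K` -/
theorem exists_div_pow {A : ℂ → ℂ} (hA : AnalyticOnNhd ℂ A (closedBall 0 1)) {C : ℝ} {K : ℕ}
    (h : ∀ᶠ z in 𝓝 (0 : ℂ), ‖A z‖ ≤ C * ‖z‖ ^ K) :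
    ∃ g : ℂ → ℂ, AnalyticOnNhd ℂ g (closedBall 0 1) ∧ ∀ z : ℂ, A z = z ^ K * g z ∨ z = 0 := by
  have h0 : AnalyticAt ℂ A 0 := hA 0 (by simp)
  have hord : (K : ℕ∞) ≤ analyticOrderAt A 0 := by
    by_contra hlt
    rw [not_le] at hlt
    have hfin : analyticOrderAt A 0 ≠ ⊤ := ne_top_of_lt hlt
    obtain ⟨n, hn⟩ := ENat.ne_top_iff_exists.1 hfin
    rw [← hn] at hlt
    have hnK : n < K := by exact_mod_cast hlt
    obtain ⟨g, hg, hg0, hgA⟩ := (h0.analyticOrderAt_eq_natCast).1 hn.symm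
    have h1 : ∀ᶠ z in 𝓝[≠] (0 : ℂ), ‖g z‖ ≤ C * ‖z‖ ^ (K - n) := by
      filter_upwards [h.filter_mono nhdsWithin_le_nhds, hgA.filter_mono nhdsWithin_le_nhds,
        self_mem_nhdsWithin] with z hz1 hz2 hz3
      have hz0 : 0 < ‖z‖ := norm_pos_iff.2 hz3
      rw [hz2, sub_zero, smul_eq_mul, norm_mul, norm_pow] at hz1
      have h2 : ‖z‖ ^ K = ‖z‖ ^ n * ‖z‖ ^ (K - n) := by rw [← pow_add]; congr 1; omega
      rw [h2] at hz1
      have h3 : 0 < ‖z‖ ^ n := by positivity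
      have h4 : ‖z‖ ^ n * ‖g z‖ ≤ ‖z‖ ^ n * (C * ‖z‖ ^ (K - n)) := by
        calc ‖z‖ ^ n * ‖g z‖ ≤ C * (‖z‖ ^ n * ‖z‖ ^ (K - n)) := hz1
          _ = _ := by ring
      exact le_of_mul_le_mul_left h4 h3
    have h5 : Tendsto (fun z : ℂ => C * ‖z‖ ^ (K - n)) (𝓝[≠] 0) (𝓝 0) := by
      have : ContinuousAt (fun z : ℂ => C * ‖z‖ ^ (K - n)) 0 := by fun_prop
      have h6 := this.tendsto
      simp only [norm_zero] at h6
      rw [zero_pow (by omega), mul_zero] at h6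
      exact h6.mono_left nhdsWithin_le_nhds
    have h7 : Tendsto (fun z : ℂ => ‖g z‖) (𝓝[≠] 0) (𝓝 ‖g 0‖) :=
      (hg.continuousAt.norm.tendsto).mono_left nhdsWithin_le_nhds
    have h8 := le_of_tendsto_of_tendsto h7 h5 h1
    exact hg0 (norm_le_zero_iff.1 h8)
  obtain ⟨g, hg, hgA⟩ := (natCast_le_analyticOrderAt h0).1 hord
  refine ⟨fun z => if z = 0 then g 0 else A z / z ^ K, fun z hz => ?_, fun z => ?_⟩
  · by_cases hz0 : z = 0
    · subst hz0
      refine hg.congr ?_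
      filter_upwards [hgA] with w hw
      by_cases hw0 : w = 0
      · simp [hw0]
      · have hne : w ^ K ≠ 0 := pow_ne_zero _ hw0
        rw [if_neg hw0, hw, sub_zero, smul_eq_mul, mul_div_cancel_left₀ _ hne]
    · have h1 : AnalyticAt ℂ (fun w => A w / w ^ K) z :=
        (hA z hz).div (analyticAt_id.pow K) (pow_ne_zero _ hz0)
      refine h1.congr ?_
      filter_upwards [isOpen_ne.mem_nhds hz0] with w hw
      rw [if_neg hw]
  · by_cases hz0 : z = 0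
    · exact Or.inr hz0
    · left
      have hne : z ^ K ≠ 0 := pow_ne_zero _ hz0
      show A z = z ^ K * (if z = 0 then g 0 else A z / z ^ K)
      rw [if_neg hz0, mul_div_cancel₀ _ hne]

/-- maximum principle on the closed disc -/
theorem max_closed {g : ℂ → ℂ} (hg : AnalyticOnNhd ℂ g (closedBall 0 1)) {M : ℝ}
    (h : ∀ z : ℂ, ‖z‖ = 1 → ‖g z‖ ≤ M) {z : ℂ} (hz : ‖z‖ ≤ 1) : ‖g z‖ ≤ M := by
  have hcl : closure (ball (0 : ℂ) 1) = closedBall 0 1 := closure_ball 0 one_ne_zero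
  have hd : DiffContOnCl ℂ g (ball 0 1) := by
    refine ⟨fun z hz => (hg z (ball_subset_closedBall hz)).differentiableAt.differentiableWithinAt,
      ?_⟩
    rw [hcl]
    exact hg.continuousOn
  refine norm_le_of_forall_mem_frontier_norm_le isBounded_ball hd (fun w hw => ?_) ?_
  · rw [frontier_ball 0 one_ne_zero, mem_sphere_zero_iff_norm] at hw
    exact h w hw
  · rw [hcl]
    simpa using hz

/-- real parts on the closed disc -/
theorem re_closed {g : ℂ → ℂ} (hg : AnalyticOnNhd ℂ g (closedBall 0 1)) {M : ℝ}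
    (h : ∀ z : ℂ, ‖z‖ = 1 → |(g z).re| ≤ M) {z : ℂ} (hz : ‖z‖ ≤ 1) : |(g z).re| ≤ M := by
  have h1 : ‖cexp (g z)‖ ≤ Real.exp M := by
    refine max_closed (g := fun z => cexp (g z)) (fun w hw => (hg w hw).cexp) (fun w hw => ?_) hz
    rw [Complex.norm_exp]
    exact Real.exp_le_exp.2 (abs_le.1 (h w hw)).2
  have h2 : ‖cexp (-g z)‖ ≤ Real.exp M := by
    refine max_closed (g := fun z => cexp (-g z)) (fun w hw => (hg w hw).neg.cexp)
      (fun w hw => ?_) hz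
    rw [Complex.norm_exp, neg_re]
    exact Real.exp_le_exp.2 (by linarith [(abs_le.1 (h w hw)).1])
  rw [Complex.norm_exp] at h1 h2
  rw [neg_re] at h2
  exact abs_le.2 ⟨by linarith [Real.exp_le_exp.1 h2], Real.exp_le_exp.1 h1⟩

/-- size of `A` on the circle from its real part -/
theorem norm_le_of_re {A : ℂ → ℂ} (hA : AnalyticOnNhd ℂ A (closedBall 0 1)) (hA0 : A 0 = 0)
    {R S : ℝ} (hR : ∀ z : ℂ, ‖z‖ = 1 → |(A z).re| ≤ R) (hS0 : 0 ≤ S)
    (hS : ∀ z : ℂ, ‖z‖ = 1 → ‖deriv A z‖ ≤ S) {z : ℂ} (hz : ‖z‖ = 1) :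
    ‖A z‖ ≤ 4 * R * Real.log (S + 1) + 1 := by
  have hR0 : 0 ≤ R := (abs_nonneg _).trans (hR 1 (by simp))
  set t : ℝ := 1 / (S + 1) with ht
  have hS1 : 0 < S + 1 := by linarith
  have ht0 : 0 < t := by positivity
  have ht1 : t ≤ 1 := by
    rw [ht, div_le_one hS1]; linarith
  set w : ℂ := ((1 - t : ℝ) : ℂ) * z with hw
  have hwn : ‖w‖ = 1 - t := by
    rw [hw, norm_mul, hz, mul_one, Complex.norm_real, Real.norm_of_nonneg (by linarith)]
  have hdiff : DifferentiableOn ℂ A (ball 0 1) := fun z hz =>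
    (hA z (ball_subset_closedBall hz)).differentiableAt.differentiableWithinAt
  have h1 := Pool.Agent.Helper16.T78.sub_le_log (φ := A) (R := 1) (A := R) hdiff
    (fun v hv => re_closed hA hR hv.le) (z := w) (by rw [hwn]; linarith)
  rw [hA0, sub_zero, hwn] at h1
  have h2 : (1 : ℝ) / (1 - (1 - t)) = S + 1 := by
    rw [ht]; field_simp; ring
  rw [h2] at h1
  have hderiv : ∀ v ∈ closedBall (0 : ℂ) 1, ‖deriv A v‖ ≤ S := fun v hv =>
    max_closed hA.deriv hS (by simpa using hv)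
  have h3 := (convex_closedBall (0 : ℂ) 1).norm_image_sub_le_of_norm_deriv_le (f := A)
    (C := S) (x := w) (y := z) (fun v hv => (hA v hv).differentiableAt) hderiv
    (by rw [mem_closedBall, dist_zero_right, hwn]; linarith) (by simp [hz])
  have h4 : ‖z - w‖ = t := by
    have : z - w = (t : ℂ) * z := by rw [hw]; push_cast; ring
    rw [this, norm_mul, hz, mul_one, Complex.norm_real, Real.norm_of_nonneg ht0.le]
  rw [h4] at h3
  have h5 : S * t ≤ 1 := by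
    rw [ht, mul_one_div, div_le_one hS1]; linarith
  calc ‖A z‖ = ‖(A z - A w) + A w‖ := by ring_nf
    _ ≤ ‖A z - A w‖ + ‖A w‖ := norm_add_le _ _
    _ ≤ 4 * R * Real.log (S + 1) + 1 := by linarith

/-- **Orthogonality.** -/
theorem orth {F G : ℂ → ℂ} (hF : AnalyticOnNhd ℂ F (closedBall 0 1))
    (hG : AnalyticOnNhd ℂ G (closedBall 0 1)) (hF0 : ∀ z : ℂ, ‖z‖ ≤ 1 → F z ≠ 0)
    (hG0 : ∀ z : ℂ, ‖z‖ ≤ 1 → G z ≠ 0) {C : ℝ} {K : ℕ} (hK : 1 ≤ K)
    (hc : ∀ z : ℂ, ‖z‖ ≤ 1 → ‖G z - F z‖ ≤ C * ‖z‖ ^ K * ‖F z‖) {S S' R : ℝ} (hS0 : 0 ≤ S)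
    (hS0' : 0 ≤ S') (hS : ∀ z : ℂ, ‖z‖ = 1 → ‖deriv F z‖ ≤ S * ‖F z‖)
    (hS' : ∀ z : ℂ, ‖z‖ = 1 → ‖deriv G z‖ ≤ S' * ‖G z‖)
    (hR : ∀ z : ℂ, ‖z‖ = 1 → |Real.log ‖G z‖ - Real.log ‖F z‖| ≤ R) :
    Real.circleAverage (fun z => Real.log ‖G z‖ ^ 2) 0 1 ≤
      Real.circleAverage (fun z => Real.log ‖F z‖ ^ 2) 0 1 +
      Real.circleAverage (fun z => (Real.log ‖G z‖ - Real.log ‖F z‖) ^ 2) 0 1 +
      S * (4 * R * Real.log (S + S' + 1) + 1) / K := by
  obtain ⟨LF, f1, f2, f3, f4⟩ := exists_log hF hF0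
  obtain ⟨LG, g1, g2, g3, g4⟩ := exists_log hG hG0
  have hFG : G 0 = F 0 := by
    have h1 := hc 0 (by simp)
    rw [norm_zero, zero_pow (by omega), mul_zero, zero_mul] at h1
    exact sub_eq_zero.1 (norm_le_zero_iff.1 h1)
  set A : ℂ → ℂ := fun z => LG z - LF z with hA
  have hAan : AnalyticOnNhd ℂ A (closedBall 0 1) := g1.sub f1
  have hA0 : A 0 = 0 := by rw [hA]; simp only; rw [g2, f2, hFG, sub_self]
  have hexp : ∀ z : ℂ, ‖z‖ ≤ 1 → cexp (A z) = 1 + (G z - F z) / F z := by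
    intro z hz
    rw [hA]; simp only
    rw [Complex.exp_sub, g3 z hz, f3 z hz]
    field_simp [hF0 z hz]
    ring
  have reF : ∀ z : ℂ, ‖z‖ ≤ 1 → (LF z).re = Real.log ‖F z‖ := by
    intro z hz
    rw [← f3 z hz, Complex.norm_exp, Real.log_exp]
  have reG : ∀ z : ℂ, ‖z‖ ≤ 1 → (LG z).re = Real.log ‖G z‖ := by
    intro z hz
    rw [← g3 z hz, Complex.norm_exp, Real.log_exp]
  have hC0 : ∀ z : ℂ, ‖z‖ ≤ 1 → ‖(G z - F z) / F z‖ ≤ C * ‖z‖ ^ K := by
    intro z hz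
    rw [norm_div, div_le_iff₀ (norm_pos_iff.2 (hF0 z hz))]
    exact hc z hz
  -- `A` is divisible by `z^K`
  have hnear : ∀ᶠ z in 𝓝 (0 : ℂ), ‖A z‖ ≤ 2 * C * ‖z‖ ^ K := by
    have e1 : ∀ᶠ z in 𝓝 (0 : ℂ), ‖A z‖ < 1 := by
      have h1 : ContinuousAt (fun z => ‖A z‖) 0 := (hAan 0 (by simp)).continuousAt.norm
      have h2 := h1.tendsto
      rw [hA0, norm_zero] at h2
      exact h2.eventually_lt_const one_pos
    have e2 : ∀ᶠ z in 𝓝 (0 : ℂ), ‖(G z - F z) / F z‖ < 1 / 2 := by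
      have h1 : ContinuousAt (fun z => ‖(G z - F z) / F z‖) 0 :=
        (((hG 0 (by simp)).continuousAt.sub (hF 0 (by simp)).continuousAt).div
          (hF 0 (by simp)).continuousAt (hF0 0 (by simp))).norm
      have h2 := h1.tendsto
      rw [hFG, sub_self, zero_div, norm_zero] at h2
      exact h2.eventually_lt_const (by norm_num)
    have e3 : ∀ᶠ z in 𝓝 (0 : ℂ), ‖z‖ < 1 := by
      have := ball_mem_nhds (0 : ℂ) one_pos
      filter_upwards [this] with z hz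
      simpa using hz
    filter_upwards [e1, e2, e3] with z h1 h2 h3
    have h4 := hexp z h3.le
    have h5 : Complex.log (cexp (A z)) = A z := by
      refine Complex.log_exp ?_ ?_
      · have := (abs_le.1 ((Complex.abs_im_le_norm (A z)).trans h1.le)).1
        have := Real.pi_gt_three
        linarith
      · have := (abs_le.1 ((Complex.abs_im_le_norm (A z)).trans h1.le)).2
        have := Real.pi_gt_three
        linarith
    rw [← h5, h4]
    have h6 := Complex.norm_log_one_add_half_le_self (z := (G z - F z) / F z) h2.le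
    have h7 := hC0 z h3.le
    have h8 := norm_nonneg ((G z - F z) / F z)
    calc ‖Complex.log (1 + (G z - F z) / F z)‖ ≤ 3 / 2 * ‖(G z - F z) / F z‖ := h6
      _ ≤ 2 * ‖(G z - F z) / F z‖ := by linarith
      _ ≤ 2 * (C * ‖z‖ ^ K) := by linarith
      _ = 2 * C * ‖z‖ ^ K := by ring
  obtain ⟨h, hh, hhA⟩ := exists_div_pow hAan hnear
  have hhA' : ∀ z : ℂ, ‖z‖ = 1 → A z = z ^ K * h z := by
    intro z hz
    rcases hhA z with h1 | h1
    · exact h1
    · rw [h1, norm_zero] at hz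
      norm_num at hz
  have hdX : ∀ z : ℂ, ‖z‖ = 1 → ‖deriv LF z‖ ≤ S := by
    intro z hz
    rw [f4 z hz.le, norm_div, div_le_iff₀ (norm_pos_iff.2 (hF0 z hz.le))]
    exact hS z hz
  have hdG : ∀ z : ℂ, ‖z‖ = 1 → ‖deriv LG z‖ ≤ S' := by
    intro z hz
    rw [g4 z hz.le, norm_div, div_le_iff₀ (norm_pos_iff.2 (hG0 z hz.le))]
    exact hS' z hz
  have hdA : ∀ z : ℂ, ‖z‖ = 1 → ‖deriv A z‖ ≤ S + S' := by
    intro z hz
    have hz' : z ∈ closedBall (0 : ℂ) 1 := by simp [hz]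
    have h1 : deriv A z = deriv LG z - deriv LF z := by
      rw [hA]
      exact deriv_sub (g1 z hz').differentiableAt (f1 z hz').differentiableAt
    rw [h1]
    refine (norm_sub_le _ _).trans ?_
    linarith [hdX z hz, hdG z hz]
  have hreA : ∀ z : ℂ, ‖z‖ ≤ 1 → (A z).re = Real.log ‖G z‖ - Real.log ‖F z‖ := by
    intro z hz
    rw [hA]; simp only
    rw [sub_re, reG z hz, reF z hz]
  have hAb : ∀ z : ℂ, ‖z‖ = 1 → ‖A z‖ ≤ 4 * R * Real.log (S + S' + 1) + 1 := by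
    intro z hz
    exact norm_le_of_re hAan hA0 (fun w hw => by rw [hreA w hw.le]; exact hR w hw)
      (by linarith) hdA hz
  have key := Pool.Agent.Helper16.T78.mean_sq_add_parts hK f1 hh hhA' hdX hAb
  have c1 : Real.circleAverage (fun z => (LF z + A z).re ^ 2) 0 1 =
      Real.circleAverage (fun z => Real.log ‖G z‖ ^ 2) 0 1 := by
    refine Real.circleAverage_congr_sphere (fun z hz => ?_)
    have hz1 : ‖z‖ ≤ 1 := by
      have : ‖z‖ = 1 := by simpa using hz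
      exact this.le
    show _ = _
    rw [add_re, hreA z hz1, reF z hz1]
    ring
  have c2 : Real.circleAverage (fun z => (LF z).re ^ 2) 0 1 =
      Real.circleAverage (fun z => Real.log ‖F z‖ ^ 2) 0 1 := by
    refine Real.circleAverage_congr_sphere (fun z hz => ?_)
    have hz1 : ‖z‖ ≤ 1 := by
      have : ‖z‖ = 1 := by simpa using hz
      exact this.le
    show _ = _
    rw [reF z hz1]
  have c3 : Real.circleAverage (fun z => (A z).re ^ 2) 0 1 =
      Real.circleAverage (fun z => (Real.log ‖G z‖ - Real.log ‖F z‖) ^ 2) 0 1 := by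
    refine Real.circleAverage_congr_sphere (fun z hz => ?_)
    have hz1 : ‖z‖ ≤ 1 := by
      have : ‖z‖ = 1 := by simpa using hz
      exact this.le
    show _ = _
    rw [hreA z hz1]
  rw [c1, c2, c3] at key
  exact key

/-- The form used in the RUN phase. -/
theorem orth_y {F G : ℂ → ℂ} (hF : AnalyticOnNhd ℂ F (closedBall 0 1))
    (hG : AnalyticOnNhd ℂ G (closedBall 0 1)) (hF0 : ∀ z : ℂ, ‖z‖ ≤ 1 → F z ≠ 0)
    (hG0 : ∀ z : ℂ, ‖z‖ ≤ 1 → G z ≠ 0) {C : ℝ} {K : ℕ}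
    (hc : ∀ z : ℂ, ‖z‖ ≤ 1 → ‖G z - F z‖ ≤ C * ‖z‖ ^ K * ‖F z‖) {y S S' R : ℝ} (hy : 4 ≤ y)
    (hKy : Real.exp (y ^ 16) * y ^ 720 ≤ K) (hS0 : 0 ≤ S) (hS0' : 0 ≤ S')
    (hSy : S ≤ Real.exp (y ^ 16) * y ^ 140) (hSy' : S' ≤ Real.exp (3 * y ^ 16))
    (hS : ∀ z : ℂ, ‖z‖ = 1 → ‖deriv F z‖ ≤ S * ‖F z‖)
    (hS' : ∀ z : ℂ, ‖z‖ = 1 → ‖deriv G z‖ ≤ S' * ‖G z‖) (hRy : R ≤ y ^ 100)
    (hR : ∀ z : ℂ, ‖z‖ = 1 → |Real.log ‖G z‖ - Real.log ‖F z‖| ≤ R) :
    Real.circleAverage (fun z => Real.log ‖G z‖ ^ 2) 0 1 ≤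
      Real.circleAverage (fun z => Real.log ‖F z‖ ^ 2) 0 1 +
      Real.circleAverage (fun z => (Real.log ‖G z‖ - Real.log ‖F z‖) ^ 2) 0 1 + 1 := by
  have hy0 : 0 < y := by linarith
  have hy1 : 1 ≤ y := by linarith
  have he : 1 ≤ Real.exp (y ^ 16) := Real.one_le_exp (by positivity)
  have hR0 : 0 ≤ R := (abs_nonneg _).trans (hR 1 (by simp))
  have hK0 : (0 : ℝ) < K := lt_of_lt_of_le (by positivity) hKy
  have hK1 : 1 ≤ K := by
    have : (0 : ℕ) < K := by exact_mod_cast hK0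
    omega
  have h1 := orth hF hG hF0 hG0 hK1 hc hS0 hS0' hS hS' hR
  refine h1.trans ?_
  -- the logarithm
  have hpow : y ^ 140 ≤ Real.exp (y ^ 16) * Real.exp (140 * y) := by
    have h2 : y ≤ Real.exp y := by linarith [Real.add_one_le_exp y]
    have h3 : y ^ 140 ≤ Real.exp (140 * y) := by
      calc y ^ 140 ≤ Real.exp y ^ 140 := pow_le_pow_left₀ hy0.le h2 140
        _ = Real.exp (140 * y) := by rw [← Real.exp_nat_mul]; norm_num
    have h4 := Real.exp_pos (140 * y)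
    nlinarith
  have h140 : 140 * y ≤ y ^ 16 := by
    have h5 : (4 : ℝ) ^ 15 ≤ y ^ 15 := pow_le_pow_left₀ (by norm_num) hy 15
    have h6 : y ^ 16 = y ^ 15 * y := by ring
    rw [h6]
    norm_num at h5
    nlinarith
  have hSle : S ≤ Real.exp (3 * y ^ 16) := by
    calc S ≤ Real.exp (y ^ 16) * y ^ 140 := hSy
      _ ≤ Real.exp (y ^ 16) * (Real.exp (y ^ 16) * Real.exp (140 * y)) :=
        mul_le_mul_of_nonneg_left hpow (Real.exp_pos _).le
      _ = Real.exp (y ^ 16 + (y ^ 16 + 140 * y)) := by rw [Real.exp_add, Real.exp_add]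
      _ ≤ Real.exp (3 * y ^ 16) := Real.exp_le_exp.2 (by linarith)
  have h3e : 1 ≤ Real.exp (3 * y ^ 16) := Real.one_le_exp (by positivity)
  have hlog : Real.log (S + S' + 1) ≤ 4 * y ^ 16 := by
    have h7 : S + S' + 1 ≤ 3 * Real.exp (3 * y ^ 16) := by linarith
    have h8 : (3 : ℝ) * Real.exp (3 * y ^ 16) ≤ Real.exp (4 * y ^ 16) := by
      have h9 : (3 : ℝ) ≤ Real.exp (y ^ 16) := by
        have h10 := Real.add_one_le_exp (y ^ 16)
        have h11 : y ≤ y ^ 16 := le_self_pow₀ hy1 (by norm_num)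
        linarith
      have h12 : Real.exp (4 * y ^ 16) = Real.exp (y ^ 16) * Real.exp (3 * y ^ 16) := by
        rw [← Real.exp_add]; ring_nf
      rw [h12]
      exact mul_le_mul_of_nonneg_right h9 (Real.exp_pos _).le
    calc Real.log (S + S' + 1) ≤ Real.log (Real.exp (4 * y ^ 16)) :=
          Real.log_le_log (by linarith) (h7.trans h8)
      _ = 4 * y ^ 16 := Real.log_exp _
  have hlog0 : 0 ≤ Real.log (S + S' + 1) := Real.log_nonneg (by linarith)
  have hb : 4 * R * Real.log (S + S' + 1) + 1 ≤ y ^ 580 := by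
    have h13 : 4 * R * Real.log (S + S' + 1) ≤ 4 * y ^ 100 * (4 * y ^ 16) :=
      mul_le_mul (by linarith) hlog hlog0 (by positivity)
    have h14 : 4 * y ^ 100 * (4 * y ^ 16) = 16 * y ^ 116 := by ring
    have h15 : (1 : ℝ) ≤ y ^ 116 := one_le_pow₀ hy1
    have h16 : (4 : ℝ) ^ 3 ≤ y ^ 3 := pow_le_pow_left₀ (by norm_num) hy 3
    have h17 : y ^ 3 ≤ y ^ 464 := pow_le_pow_right₀ hy1 (by norm_num)
    have h17' : (17 : ℝ) ≤ y ^ 464 := by norm_num at h16; linarith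
    have h18 : y ^ 580 = y ^ 464 * y ^ 116 := by ring
    have h19 : 17 * y ^ 116 ≤ y ^ 464 * y ^ 116 :=
      mul_le_mul_of_nonneg_right h17' (by positivity)
    rw [h18]
    linarith
  have hfin : S * (4 * R * Real.log (S + S' + 1) + 1) / K ≤ 1 := by
    rw [div_le_one hK0]
    calc S * (4 * R * Real.log (S + S' + 1) + 1) ≤ (Real.exp (y ^ 16) * y ^ 140) * y ^ 580 :=
          mul_le_mul hSy hb (by positivity) (by positivity)
      _ = Real.exp (y ^ 16) * y ^ 720 := by ring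
      _ ≤ K := hKy
  linarith

end Pool.Agent.Helper58.QF
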